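import Mathlib
import Pool.Agent.Q11.Evo.Final

set_option autoImplicit false

namespace Pool.Agent.Results.MP_fa30b9_al.Classification

open Pool.Agent.Q11.Evo

/-- Non-nilpotent complex evolution algebras satisfying condition `P`.

* Every `n`-dimensional one is isomorphic to `ES₁ ⊕ ℂ^(n-1)` or to `ES₁ ⊕ F ⊕ ℂ^(n-s-1)` with
  `2 ≤ s ≤ n - 1` and `F ∈ ZN^s`.
* `ES₁ ⊕ ℂ^m'` is never isomorphic to `ES₁ ⊕ F ⊕ ℂ^m` with `F ∈ ZN^s`, `s ≥ 2`.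
* If `ES₁ ⊕ F ⊕ ℂ^m` and `ES₁ ⊕ F' ⊕ ℂ^m'` are isomorphic, where `F ∈ ZN^s`, `F' ∈ ZN^s'` and
  `s, s' ≥ 2`, then `s = s'`, `m = m'` and `F` is isomorphic to `F'`. -/
theorem result :
    (∀ n : ℕ, 1 ≤ n → ∀ E : CAlg, IsEvo n E.mul → CondP E.mul → ¬ IsNilp E.mul →
      Iso E (dsum ES1 (null (n - 1))) ∨
        ∃ s, 2 ≤ s ∧ s ≤ n - 1 ∧
          ∃ F : CAlg, InZN s F ∧ Iso E (dsum ES1 (dsum F (null (n - s - 1))))) ∧
    (∀ (s m m' : ℕ) (F : CAlg), 2 ≤ s → InZN s F →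
      ¬ Iso (dsum ES1 (null m')) (dsum ES1 (dsum F (null m)))) ∧
    (∀ (s s' m m' : ℕ) (F F' : CAlg), 2 ≤ s → 2 ≤ s' → InZN s F → InZN s' F' →
      Iso (dsum ES1 (dsum F (null m))) (dsum ES1 (dsum F' (null m'))) →
      s = s' ∧ m = m' ∧ Iso F F') :=
  ⟨fun n _ E hE hP hn => classify n E hE hP hn,
    fun _ _ _ _ hs hF => not_iso hs hF,
    fun _ _ _ _ _ _ hs hs' hF hF' h => iso_imp hs hs' hF hF' h⟩

end Pool.Agent.Results.MP_fa30b9_al.Classification
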